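import Pool.Agent.H82.NET.Stmts

/-! Row REF of the board net (helper89) -/

set_option autoImplicit false

namespace Pool.NET

theorem REF_symm (N : Set Nd) (u : Nd → Prop) {v w : Nd} (h : G0 N u v w) : G0 N u w v := by
  obtain ⟨h1, h2, h | h | h | h⟩ := h
  · exact ⟨h2, h1, Or.inr (Or.inl h)⟩
  · exact ⟨h2, h1, Or.inl h⟩
  · exact ⟨h2, h1, Or.inr (Or.inr (Or.inr h))⟩
  · exact ⟨h2, h1, Or.inr (Or.inr (Or.inl h))⟩

theorem REF_rsymm (N : Set Nd) (u : Nd → Prop) {v w : Nd}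
    (h : Relation.ReflTransGen (G0 N u) v w) : Relation.ReflTransGen (G0 N u) w v := by
  induction h with
  | refl => exact Relation.ReflTransGen.refl
  | tail _ h ih => exact Relation.ReflTransGen.head (REF_symm N u h) ih

theorem REF_even (M : Set Nd) (i j x y : ℤ) (h : ((i, j) : Nd) ∈ M) (hx : x = 2 * i)
    (hy : y = 4 * j - 1 ∨ y = 4 * j ∨ y = 4 * j + 1) : ((x, y) : Nd) ∈ Rf M := by
  left
  have e1 : x / 2 = i := by omega
  have e2 : (y + 1) / 4 = j := by omega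
  refine ⟨by show x % 2 = 0; omega, by show y % 4 ≠ 2; omega, ?_⟩
  show ((x / 2, (y + 1) / 4) : Nd) ∈ M
  rw [e1, e2]
  exact h

theorem REF_odd (M : Set Nd) (i j x y : ℤ) (h : ((i, j) : Nd) ∈ M) (hx : x = 2 * i + 1)
    (hy : y = 4 * j ∨ y = 4 * j + 1 ∨ y = 4 * j + 2 ∨ y = 4 * j + 3) :
    ((x, y) : Nd) ∈ Rf M := by
  right
  have e1 : x / 2 = i := by omega
  have e2 : y / 4 = j := by omega
  refine ⟨by show x % 2 = 1; omega, ?_⟩
  show ((x / 2, y / 4) : Nd) ∈ M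
  rw [e1, e2]
  exact h

theorem REF_hor (M : Set Nd) (x y x' : ℤ) (h1 : ((x, y) : Nd) ∈ Rf M)
    (h2 : ((x', y) : Nd) ∈ Rf M) (hx : x' = x + 1) : G0 (Rf M) uu (x, y) (x', y) := by
  subst hx
  exact ⟨h1, h2, Or.inl ⟨rfl, trivial⟩⟩

theorem REF_ver (M : Set Nd) (x y y' : ℤ) (h1 : ((x, y) : Nd) ∈ Rf M)
    (h2 : ((x, y') : Nd) ∈ Rf M) (hy : y' = y + 1)
    (hu : (x % 2 = 0 ∧ (y % 4 = 3 ∨ y % 4 = 0)) ∨ (x % 2 = 1 ∧ (y % 4 = 1 ∨ y % 4 = 2))) :
    G0 (Rf M) uu (x, y) (x, y') := by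
  subst hy
  exact ⟨h1, h2, Or.inr (Or.inr (Or.inl ⟨rfl, hu⟩))⟩

/-- the block of a node is connected to its centre -/
theorem REF_block (M : Set Nd) (i j : ℤ) (h : ((i, j) : Nd) ∈ M) :
    (∀ y, y = 4 * j - 1 ∨ y = 4 * j ∨ y = 4 * j + 1 →
      Relation.ReflTransGen (G0 (Rf M) uu) (2 * i, 4 * j) (2 * i, y)) ∧
    (∀ y, y = 4 * j ∨ y = 4 * j + 1 ∨ y = 4 * j + 2 ∨ y = 4 * j + 3 →
      Relation.ReflTransGen (G0 (Rf M) uu) (2 * i, 4 * j) (2 * i + 1, y)) := by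
  have E := fun y hy => REF_even M i j (2 * i) y h rfl hy
  have O := fun y hy => REF_odd M i j (2 * i + 1) y h rfl hy
  have s1 : G0 (Rf M) uu (2 * i, 4 * j) (2 * i, 4 * j - 1) :=
    REF_symm _ _ (REF_ver M (2 * i) (4 * j - 1) (4 * j) (E _ (by omega)) (E _ (by omega))
      (by omega) (by omega))
  have s2 : G0 (Rf M) uu (2 * i, 4 * j) (2 * i, 4 * j + 1) :=
    REF_ver M (2 * i) (4 * j) (4 * j + 1) (E _ (by omega)) (E _ (by omega)) (by omega) (by omega)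
  have s3 : G0 (Rf M) uu (2 * i, 4 * j) (2 * i + 1, 4 * j) :=
    REF_hor M (2 * i) (4 * j) (2 * i + 1) (E _ (by omega)) (O _ (by omega)) rfl
  have s4 : G0 (Rf M) uu (2 * i, 4 * j + 1) (2 * i + 1, 4 * j + 1) :=
    REF_hor M (2 * i) (4 * j + 1) (2 * i + 1) (E _ (by omega)) (O _ (by omega)) rfl
  have s5 : G0 (Rf M) uu (2 * i + 1, 4 * j + 1) (2 * i + 1, 4 * j + 2) :=
    REF_ver M (2 * i + 1) (4 * j + 1) (4 * j + 2) (O _ (by omega)) (O _ (by omega)) (by omega)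
      (by omega)
  have s6 : G0 (Rf M) uu (2 * i + 1, 4 * j + 2) (2 * i + 1, 4 * j + 3) :=
    REF_ver M (2 * i + 1) (4 * j + 2) (4 * j + 3) (O _ (by omega)) (O _ (by omega)) (by omega)
      (by omega)
  have t4 := (Relation.ReflTransGen.single s2).tail s4
  have t5 := t4.tail s5
  have t6 := t5.tail s6
  constructor
  · rintro y (rfl | rfl | rfl)
    · exact Relation.ReflTransGen.single s1
    · exact Relation.ReflTransGen.refl
    · exact Relation.ReflTransGen.single s2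
  · rintro y (rfl | rfl | rfl | rfl)
    · exact Relation.ReflTransGen.single s3
    · exact t4
    · exact t5
    · exact t6

theorem REF_centre (M : Set Nd) (v : Nd) (hv : v ∈ Rf M) : ∃ i j : ℤ, ((i, j) : Nd) ∈ M ∧
    Relation.ReflTransGen (G0 (Rf M) uu) (2 * i, 4 * j) v := by
  obtain ⟨x, y⟩ := v
  rcases hv with ⟨h1, h2, h3⟩ | ⟨h1, h3⟩
  · change x % 2 = 0 at h1
    change y % 4 ≠ 2 at h2
    change ((x / 2, (y + 1) / 4) : Nd) ∈ M at h3
    refine ⟨x / 2, (y + 1) / 4, h3, ?_⟩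
    have hb := (REF_block M _ _ h3).1 y (by omega)
    have hx : x = 2 * (x / 2) := by omega
    rw [← hx] at hb ⊢
    exact hb
  · change x % 2 = 1 at h1
    change ((x / 2, y / 4) : Nd) ∈ M at h3
    refine ⟨x / 2, y / 4, h3, ?_⟩
    have hb := (REF_block M _ _ h3).2 y (by omega)
    have hx : 2 * (x / 2) + 1 = x := by omega
    rw [hx] at hb
    exact hb

theorem REF_step (M : Set Nd) (v w : Nd) (h : G0 M (fun _ => True) v w) :
    Relation.ReflTransGen (G0 (Rf M) uu) (2 * v.1, 4 * v.2) (2 * w.1, 4 * w.2) := by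
  have key : ∀ a b c d : ℤ, ((a, b) : Nd) ∈ M → ((c, d) : Nd) ∈ M →
      ((c = a + 1 ∧ d = b) ∨ (c = a ∧ d = b + 1)) →
      Relation.ReflTransGen (G0 (Rf M) uu) (2 * a, 4 * b) (2 * c, 4 * d) := by
    intro a b c d h1 h2 h3
    rcases h3 with ⟨hc, hd⟩ | ⟨hc, hd⟩
    · subst hc
      have hd' := hd.symm
      subst hd'
      have t := (REF_block M a b h1).2 (4 * b) (by omega)
      exact t.tail (REF_hor M _ _ _ (REF_odd M a b _ _ h1 rfl (by omega))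
        (REF_even M (a + 1) b _ _ h2 rfl (by omega)) (by ring))
    · subst hd
      have hc' := hc.symm
      subst hc'
      have t := (REF_block M a b h1).2 (4 * b + 3) (by omega)
      have t2 := (REF_block M a (b + 1) h2).1 (4 * b + 3) (by omega)
      have s : G0 (Rf M) uu (2 * a, 4 * b + 3) (2 * a + 1, 4 * b + 3) :=
        REF_hor M _ _ _ (REF_even M a (b + 1) _ _ h2 rfl (by omega))
          (REF_odd M a b _ _ h1 rfl (by omega)) rfl
      exact (t.tail (REF_symm _ _ s)).trans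
        (REF_rsymm _ _ t2)
  obtain ⟨v1, v2⟩ := v
  obtain ⟨w1, w2⟩ := w
  obtain ⟨h1, h2, ⟨h3, -⟩ | ⟨h3, -⟩ | ⟨h3, -⟩ | ⟨h3, -⟩⟩ := h
  · have h4 := Prod.mk.inj h3
    exact key v1 v2 w1 w2 h1 h2 (Or.inl ⟨h4.1, h4.2⟩)
  · have h4 := Prod.mk.inj h3
    exact REF_rsymm _ _
      (key w1 w2 v1 v2 h2 h1 (Or.inl ⟨h4.1, h4.2⟩))
  · have h4 := Prod.mk.inj h3
    exact key v1 v2 w1 w2 h1 h2 (Or.inr ⟨h4.1, h4.2⟩)
  · have h4 := Prod.mk.inj h3
    exact REF_rsymm _ _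
      (key w1 w2 v1 v2 h2 h1 (Or.inr ⟨h4.1, h4.2⟩))

theorem ref_thm : REF_S := by
  intro M hM v hv w hw
  obtain ⟨i, j, h1, h2⟩ := REF_centre M v hv
  obtain ⟨i', j', h3, h4⟩ := REF_centre M w hw
  have h5 : ∀ b : Nd, Relation.ReflTransGen (G0 M fun _ => True) (i, j) b →
      Relation.ReflTransGen (G0 (Rf M) uu) (2 * i, 4 * j) (2 * b.1, 4 * b.2) := by
    intro b hb
    induction hb with
    | refl => exact Relation.ReflTransGen.refl
    | tail _ h ih => exact ih.trans (REF_step M _ _ h)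
  exact ((REF_rsymm _ _ h2).trans
    (h5 (i', j') (hM _ h1 _ h3))).trans h4

end Pool.NET
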